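import Pool.Agent.D0H54.Gk.Act

/-!
# Piece V1 of the Gekeler project (helper54): a valuation at infinity
-/

set_option autoImplicit false
set_option linter.unusedSectionVars false

namespace Pool.Agent.D0H10.GK

open Polynomial IsDedekindDomain
open Pool.Agent.D0H54.Gk (al al_X al_C al_inj al_apply)
open scoped WithZero

/-- extension of a discrete valuation to a finite separable extension -/
theorem exists_val {A K F : Type*} [CommRing A] [IsDedekindDomain A] [Field K] [Field F]
    [Algebra K F] [FiniteDimensional K F] [Algebra.IsSeparable K F] (φ : A →+* K)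
    (hφ : Function.Injective φ) (hfr : ∀ z : K, ∃ a b : A, z = φ a / φ b) (x : A)
    (hx : ¬ IsUnit x) (hx0 : x ≠ 0) :
    ∃ v : Valuation F ℤᵐ⁰, (∀ a : A, v (algebraMap K F (φ a)) ≤ 1) ∧
      v (algebraMap K F (φ x)) < 1 := by
  let _ : Algebra A K := φ.toAlgebra
  let _ : Algebra A F := ((algebraMap K F).comp φ).toAlgebra
  have : IsScalarTower A K F := IsScalarTower.of_algebraMap_eq fun _ => rfl
  have : FaithfulSMul A K := (faithfulSMul_iff_algebraMap_injective A K).2 hφ
  have : IsFractionRing A K := IsFractionRing.of_field A K hfr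
  have hinj : Function.Injective (algebraMap A F) := (algebraMap K F).injective.comp hφ
  have h1 : IsDedekindDomain (integralClosure A F) := integralClosure.isDedekindDomain A K F
  have h2 : IsFractionRing (integralClosure A F) F :=
    integralClosure.isFractionRing_of_finite_extension K F
  have hinjB : Function.Injective (algebraMap A (integralClosure A F)) := by
    intro a b h
    apply hinj
    exact congrArg (algebraMap (integralClosure A F) F) h
  obtain ⟨P, hP, hxP⟩ := exists_max_ideal_of_mem_nonunits (a := x) hx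
  obtain ⟨Q, hQ, hQP⟩ := Ideal.exists_ideal_over_maximal_of_isIntegral
    (S := integralClosure A F) P (by
      rw [(RingHom.injective_iff_ker_eq_bot _).1 hinjB]
      exact bot_le)
  have hxQ : algebraMap A (integralClosure A F) x ∈ Q := by
    rw [← hQP] at hxP
    exact hxP
  let w : HeightOneSpectrum (integralClosure A F) := ⟨Q, hQ.isPrime, by
    rintro rfl
    exact hx0 (hinjB (by rw [map_zero]; exact hxQ))⟩
  exact ⟨w.valuation F, fun a => w.valuation_le_one (algebraMap A (integralClosure A F) a),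
    (w.valuation_lt_one_iff_mem (algebraMap A (integralClosure A F) x)).2 hxQ⟩

section

variable {k : Type*} [Field k]

/-- the ring homomorphism `X ↦ 1 / T` -/
noncomputable def phi : k[X] →+* RatFunc k := eval₂RingHom RatFunc.C (RatFunc.X)⁻¹

theorem phi_X : phi (X : k[X]) = (RatFunc.X)⁻¹ := by
  simp [phi]

theorem phi_C (c : k) : phi (C c : k[X]) = RatFunc.C c := by
  simp [phi]

theorem eval_X (f : k[X]) : eval₂ (RatFunc.C : k →+* RatFunc k) RatFunc.X f =
    algebraMap k[X] (RatFunc k) f := by
  have : (eval₂RingHom (RatFunc.C : k →+* RatFunc k) RatFunc.X) =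
      algebraMap k[X] (RatFunc k) := by
    apply Polynomial.ringHom_ext
    · intro a
      simp
    · simp
  rw [← this]
  rfl

theorem phi_reverse (f : k[X]) :
    phi f.reverse * RatFunc.X ^ f.natDegree = algebraMap k[X] (RatFunc k) f := by
  let _ : Invertible (RatFunc.X : RatFunc k) := invertibleOfNonzero RatFunc.X_ne_zero
  have h := eval₂_reverse_mul_pow (RatFunc.C : k →+* RatFunc k) RatFunc.X f
  rw [invOf_eq_inv] at h
  rw [← eval_X, ← h]
  rfl

theorem phi_inj : Function.Injective (phi : k[X] →+* RatFunc k) := by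
  rw [injective_iff_map_eq_zero]
  intro f hf
  let _ : Invertible ((RatFunc.X : RatFunc k)⁻¹) :=
    invertibleOfNonzero (inv_ne_zero RatFunc.X_ne_zero)
  have h := eval₂_reverse_eq_zero_iff (RatFunc.C : k →+* RatFunc k) (RatFunc.X)⁻¹ f
  rw [invOf_eq_inv, inv_inv, eval_X] at h
  have h1 : algebraMap k[X] (RatFunc k) f.reverse = 0 := h.2 hf
  rw [map_eq_zero_iff _ (RatFunc.algebraMap_injective k), reverse_eq_zero] at h1
  exact h1

theorem phi_frac (z : RatFunc k) : ∃ a b : k[X], z = phi a / phi b := by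
  obtain ⟨f, g, hg, rfl⟩ := IsFractionRing.div_surjective (A := k[X]) z
  have hX : (RatFunc.X : RatFunc k) ≠ 0 := RatFunc.X_ne_zero
  refine ⟨f.reverse * X ^ g.natDegree, g.reverse * X ^ f.natDegree, ?_⟩
  rw [← phi_reverse f, ← phi_reverse g, map_mul, map_mul, map_pow, map_pow, phi_X]
  have hg0 : phi g.reverse ≠ 0 := by
    rw [Ne, map_eq_zero_iff _ phi_inj, reverse_eq_zero]
    exact nonZeroDivisors.ne_zero hg
  have h1 : ∀ n : ℕ, (RatFunc.X : RatFunc k) ^ n * (RatFunc.X⁻¹) ^ n = 1 := fun n => by
    rw [← mul_pow, mul_inv_cancel₀ hX, one_pow]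
  have hX1 : ∀ n : ℕ, ((RatFunc.X : RatFunc k)⁻¹) ^ n ≠ 0 := fun n => pow_ne_zero _ (inv_ne_zero hX)
  have hX2 : ∀ n : ℕ, (RatFunc.X : RatFunc k) ^ n ≠ 0 := fun n => pow_ne_zero _ hX
  rw [div_eq_div_iff (mul_ne_zero hg0 (hX2 _)) (mul_ne_zero hg0 (hX1 _))]
  linear_combination (phi f.reverse * phi g.reverse) * h1 f.natDegree -
    (phi f.reverse * phi g.reverse) * h1 g.natDegree

/-- the element has finite order prime to `p` -/
theorem order_of {F : Type*} [Field F] (p : ℕ) [Fact p.Prime] [CharP F p] {u : Fˣ} {n : ℕ}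
    (hn : 0 < n) (h : u ^ n = 1) : ∃ m : ℕ, ¬ p ∣ m ∧ u ^ m = 1 := by
  obtain ⟨e, m, hm, rfl⟩ := Nat.exists_eq_pow_mul_and_not_dvd hn.ne' p
    (Fact.out : p.Prime).ne_one
  refine ⟨m, hm, ?_⟩
  have h1 : ((u : F) ^ m - 1) ^ p ^ e = 0 := by
    rw [sub_pow_char_pow, one_pow, ← pow_mul, mul_comm m, ← Units.val_pow_eq_pow_val, h,
      Units.val_one, sub_self]
  have h2 := eq_zero_of_pow_eq_zero h1
  exact Units.ext (by rw [Units.val_pow_eq_pow_val, Units.val_one]; exact sub_eq_zero.1 h2)

/-- elements integral over the constants have finite order -/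
theorem fin_order {F : Type*} [Field F] [Fintype k] [Algebra k F] (u : Fˣ)
    (hu : IsIntegral k (u : F)) : ∃ n : ℕ, 0 < n ∧ u ^ n = 1 := by
  have h1 : FiniteDimensional k (Algebra.adjoin k {(u : F)}) :=
    ⟨(Submodule.fg_top _).2 hu.fg_adjoin_singleton⟩
  have h2 : Finite (Algebra.adjoin k {(u : F)}) := Module.finite_of_finite k
  have h3 : ¬ Function.Injective (fun n : ℕ =>
      (⟨(u : F), Algebra.self_mem_adjoin_singleton k (u : F)⟩ : Algebra.adjoin k {(u : F)}) ^ n) :=
    not_injective_infinite_finite _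
  unfold Function.Injective at h3
  push Not at h3
  obtain ⟨a, b, hab, hne⟩ := h3
  have h4 : u ^ a = u ^ b := by
    apply Units.ext
    rw [Units.val_pow_eq_pow_val, Units.val_pow_eq_pow_val]
    exact congrArg Subtype.val hab
  rcases lt_or_gt_of_ne hne with h | h
  · refine ⟨b - a, by omega, ?_⟩
    rw [pow_sub _ h.le, ← h4, mul_inv_cancel]
  · refine ⟨a - b, by omega, ?_⟩
    rw [pow_sub _ h.le, h4, mul_inv_cancel]

/-- coefficients of a split monic polynomial -/
theorem coeff_le {F : Type*} [Field F] (v : Valuation F ℤᵐ⁰) (s : Multiset F)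
    (hs : ∀ r ∈ s, v r ≤ 1) (n : ℕ) : v ((s.map fun r => X - C r).prod.coeff n) ≤ 1 := by
  have h1 : (s.map fun r => X - C r).prod ∈ lifts (v.integer.subtype) := by
    refine Subsemiring.multiset_prod_mem _ _ ?_
    intro f hf
    obtain ⟨r, hr, rfl⟩ := Multiset.mem_map.1 hf
    have h2 : (-r) ∈ v.integer := v.integer.neg_mem (hs r hr)
    rw [sub_eq_add_neg, ← C_neg]
    exact (lifts _).add_mem (X_mem_lifts _) (C_mem_lifts v.integer.subtype ⟨-r, h2⟩)
  obtain ⟨y, hy⟩ := (lifts_iff_coeff_lifts _).1 h1 n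
  rw [← hy]
  exact y.2

end

/-- **V1** -/
theorem exists_val_infty (p : ℕ) [Fact p.Prime] {k F : Type*} [Field k] [Fintype k] [CharP k p]
    [Field F] [Algebra (RatFunc k) F] [FiniteDimensional (RatFunc k) F] [IsGalois (RatFunc k) F] :
    ∃ v : Fˣ →* Multiplicative ℤ, ∀ u : Fˣ, (al k F).IsIntegralElem (u : F) →
      (∀ s : F ≃ₐ[RatFunc k] F, v (Units.map (s : F →* F) u) = 1) →
        ∃ m : ℕ, ¬ (p ∣ m) ∧ u ^ m = 1 := by
  have hXu : ¬ IsUnit (X : k[X]) := by
    intro h
    exact Polynomial.not_isUnit_X h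
  obtain ⟨w, hw1, hw2⟩ := exists_val (K := RatFunc k) (F := F) phi phi_inj phi_frac X hXu X_ne_zero
  let e : (ℤᵐ⁰)ˣ ≃* Multiplicative ℤ := WithZero.unitsWithZeroEquiv
  refine ⟨e.toMonoidHom.comp (Units.map (w : F →* ℤᵐ⁰)), fun u hu hv => ?_⟩
  have hv' : ∀ s : F ≃ₐ[RatFunc k] F, w (s (u : F)) = 1 := by
    intro s
    have h1 := hv s
    have h2 : Units.map (w : F →* ℤᵐ⁰) (Units.map (s : F →* F) u) = 1 := by
      apply e.injective
      rw [map_one]
      exact h1
    exact congrArg Units.val h2
  -- the valuation is trivial on the constants and large at `T`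
  let _ : Algebra k F := ((al k F).comp C).toAlgebra
  let _ : Algebra k[X] F := (al k F).toAlgebra
  have _ : IsScalarTower k[X] (RatFunc k) F := IsScalarTower.of_algebraMap_eq fun _ => rfl
  have hC : ∀ c : k, algebraMap k F c = algebraMap (RatFunc k) F (phi (C c)) := by
    intro c
    rw [phi_C, ← al_C]
    rfl
  have htriv : w.IsTrivialOn k := by
    refine ⟨fun c hc => ?_⟩
    refine le_antisymm ?_ ?_
    · rw [hC]
      exact hw1 _
    · have h1 : w (algebraMap k F c) * w (algebraMap k F c⁻¹) = 1 := by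
        rw [← map_mul, ← map_mul, mul_inv_cancel₀ hc, map_one, map_one]
      have h2 : w (algebraMap k F c⁻¹) ≤ 1 := by
        rw [hC]
        exact hw1 _
      rw [← h1]
      exact mul_le_of_le_one_right' h2
  have hT : 1 < w (al k F X) := by
    rw [phi_X, map_inv₀, map_inv₀] at hw2
    rw [al_X]
    have h0 : w (algebraMap (RatFunc k) F RatFunc.X) ≠ 0 := by
      rw [Ne, Valuation.zero_iff, map_eq_zero]
      exact RatFunc.X_ne_zero
    exact (inv_lt_one₀ (zero_lt_iff.2 h0)).1 hw2
  have hconst : ∀ a : k[X], w (al k F a) ≤ 1 → a = C (a.coeff 0) := by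
    intro a ha
    by_contra hne
    have ha0 : a ≠ 0 := by
      rintro rfl
      simp at hne
    have h1 : aeval (al k F X) a = al k F a := by
      have h2 := hom_eval₂ a C (al k F) X
      rw [eval₂_C_X] at h2
      exact h2.symm
    have h2 := valuation_aeval_eq_valuation_X_pow_natDegree_of_one_lt_valuation_X
      (v := w) (al k F X) hT ha0
    rw [h1] at h2
    rw [h2] at ha
    have h3 : a.natDegree ≠ 0 := by
      intro h4
      exact hne (eq_C_of_natDegree_eq_zero h4)
    exact absurd ha (not_le.2 (one_lt_pow₀ hT h3))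
  -- the minimal polynomial
  have hint : IsIntegral k[X] (u : F) := hu
  have hmin := minpoly.isIntegrallyClosed_eq_field_fractions' (RatFunc k) hint
  have hspl : ((minpoly (RatFunc k) (u : F)).map (algebraMap (RatFunc k) F)).Splits :=
    (inferInstance : Normal (RatFunc k) F).splits _
  have hmon : ((minpoly (RatFunc k) (u : F)).map (algebraMap (RatFunc k) F)).Monic :=
    (minpoly.monic (Algebra.IsIntegral.isIntegral _)).map _
  have hprod := hspl.eq_prod_roots_of_monic hmon
  have hroots : ∀ r ∈ ((minpoly (RatFunc k) (u : F)).map (algebraMap (RatFunc k) F)).roots,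
      w r ≤ 1 := by
    intro r hr
    rw [mem_roots hmon.ne_zero, IsRoot.def, eval_map_algebraMap] at hr
    obtain ⟨s, hs⟩ := minpoly.exists_algEquiv_of_root' (Algebra.IsAlgebraic.isAlgebraic (u : F)) hr
    rw [← hs, hv']
  have hcoef : ∀ n, (minpoly k[X] (u : F)).coeff n = C (((minpoly k[X] (u : F)).coeff n).coeff 0) := by
    intro n
    apply hconst
    have h1 := coeff_le w _ hroots n
    rw [← hprod, hmin, map_map, coeff_map] at h1
    exact h1
  have hintk : IsIntegral k (u : F) := by
    refine ⟨(minpoly k[X] (u : F)).map constantCoeff, (minpoly.monic hint).map _, ?_⟩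
    have h1 : minpoly k[X] (u : F) = ((minpoly k[X] (u : F)).map constantCoeff).map C := by
      ext1 n
      rw [coeff_map, coeff_map]
      exact hcoef n
    have h2 := minpoly.aeval k[X] (u : F)
    rw [aeval_def, h1, eval₂_map] at h2
    exact h2
  have : CharP F p := charP_of_injective_ringHom (f := (al k F).comp C)
    (RingHom.injective _) p
  obtain ⟨n, hn, hn1⟩ := fin_order u hintk
  exact order_of p hn hn1

end Pool.Agent.D0H10.GK
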